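import Mathlib
import Pool.Agent.H69.TqhDefs
import Pool.Agent.H69.Tqh2

set_option autoImplicit false

namespace Pool.Agent.Results.MP_febddb_al.Addition

open MeasureTheory Pool.Agent.H69.Tqh

/-- The Addition Theorem holds for every continuous endomorphism of a strongly compactly covered
topologically quasihamiltonian group and every closed normal invariant subgroup. -/
theorem result (G : Type) [Group G] [TopologicalSpace G] [IsTopologicalGroup G] [T2Space G]
    (hs : SCC G) (hq : TQH G) (φ : G →* G) (hφ : Continuous φ)
    (H : Subgroup G) [H.Normal] (hH : IsClosed (H : Set G)) (hinv : ∀ x ∈ H, φ x ∈ H)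
    [MeasurableSpace G] [BorelSpace G] [MeasurableSpace (G ⧸ H)] [BorelSpace (G ⧸ H)]
    (μ : Measure G) (ν : Measure (G ⧸ H)) (l : Measure H)
    (hμ : RightHaar μ) (hν : RightHaar ν) (hl : RightHaar l) :
    halg μ φ = halg ν (QuotientGroup.map H H φ hinv) +
      halg l ((φ.comp H.subtype).codRestrict H fun x => hinv x x.2) :=
  addition H hs hq φ hφ hH _ (fun _ => rfl) _ (fun _ => rfl) hμ hν hl

end Pool.Agent.Results.MP_febddb_al.Addition
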